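import Mathlib

set_option autoImplicit false

namespace Pool.Agent.Results.MP_5790d7_co.Unsecable

/-- The chain used as counterexample: a copy of the naturals followed by a sum, indexed by the
reversed naturals, of copies of the naturals. -/
abbrev Ch : Type := ℕ ⊕ₗ (ℕᵒᵈ ×ₗ ℕ)

/-- Elements of the final part. -/
def r (j m : ℕ) : Ch := Sum.inrₗ (toLex (OrderDual.toDual j, m))

/-- Elements of the initial part. -/
def l (n : ℕ) : Ch := Sum.inlₗ n

theorem cases (a : Ch) : (∃ n, a = l n) ∨ ∃ j m, a = r j m := by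
  induction a using Lex.rec with
  | _ a =>
  rcases a with n | b
  · exact Or.inl ⟨n, rfl⟩
  · induction b using Lex.rec with
    | _ b =>
    exact Or.inr ⟨OrderDual.ofDual b.1, b.2, rfl⟩

theorem l_lt_l {n m : ℕ} : l n < l m ↔ n < m := Sum.Lex.inl_lt_inl_iff

theorem l_lt_r (n j m : ℕ) : l n < r j m := Sum.Lex.inl_lt_inr _ _

theorem r_lt_r {j m j' m' : ℕ} : r j m < r j' m' ↔ j' < j ∨ j = j' ∧ m < m' := by
  unfold r
  rw [Sum.Lex.inr_lt_inr_iff, Prod.Lex.toLex_lt_toLex]
  simp [OrderDual.toDual_lt_toDual]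

theorem l_ne_r (n j m : ℕ) : l n ≠ r j m := (l_lt_r n j m).ne

theorem not_r_lt_l (n j m : ℕ) : ¬ r j m < l n := (l_lt_r n j m).le.not_gt

/-- The strictly decreasing sequence. -/
theorem anti : StrictAnti (fun j : ℕ => r j 0) := by
  intro a b h
  exact r_lt_r.mpr (Or.inl h)

theorem not_emb_of_wf {α : Type} [LinearOrder α] [WellFoundedLT α] (f : Ch ↪o α) : False :=
  not_strictAnti_of_wellFoundedLT (fun j => f (r j 0)) (fun _ _ h => f.strictMono (anti h))

theorem wf_of_left {X : Set Ch} (h : ∀ x ∈ X, ∃ n, x = l n) : WellFoundedLT X := by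
  choose g hg using h
  refine ⟨Subrelation.wf (r := InvImage (· < ·) (fun x : X => g x.1 x.2)) ?_ (InvImage.wf _ wellFounded_lt)⟩
  intro x y hxy
  have h1 : x.1 < y.1 := hxy
  rw [hg x.1 x.2, hg y.1 y.2] at h1
  exact l_lt_l.mp h1

theorem left_of_lt {X : Set Ch} (hX : IsLowerSet X) (hn : ¬ Nonempty (Ch ↪o X)) :
    ∀ x ∈ X, ∃ n, x = l n := by
  intro x hx
  rcases cases x with h | ⟨k, m, rfl⟩
  · exact h
  · exfalso
    apply hn
    have hl : ∀ n, l n ∈ X := fun n => hX (l_lt_r n k m).le hx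
    have hr : ∀ j m', r (j + k + 1) m' ∈ X := fun j m' =>
      hX (r_lt_r.mpr (Or.inl (by omega))).le hx
    let F : Ch → X := fun a =>
      match ofLex a with
      | Sum.inl n => ⟨l n, hl n⟩
      | Sum.inr b => ⟨r (OrderDual.ofDual (ofLex b).1 + k + 1) (ofLex b).2, hr _ _⟩
    have hFl : ∀ n, (F (l n)).1 = l n := fun n => rfl
    have hFr : ∀ j m', (F (r j m')).1 = r (j + k + 1) m' := fun j m' => rfl
    refine ⟨OrderEmbedding.ofStrictMono F ?_⟩
    intro a b hab
    change (F a).1 < (F b).1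
    rcases cases a with ⟨n, rfl⟩ | ⟨j, p, rfl⟩
    · rcases cases b with ⟨n', rfl⟩ | ⟨j', p', rfl⟩
      · rw [hFl, hFl]; exact hab
      · rw [hFl, hFr]; exact l_lt_r _ _ _
    · rcases cases b with ⟨n', rfl⟩ | ⟨j', p', rfl⟩
      · exact absurd hab (not_r_lt_l _ _ _)
      · rw [hFr, hFr, r_lt_r]
        rw [r_lt_r] at hab
        omega

/-- There is a countable chain `A` such that `X + X < A` for every initial interval `X < A`, and
which has a decomposition `A = B + C` with `A` embeddable neither in `B` nor in `C`. -/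
theorem result :
    ∃ (A : Type) (_ : LinearOrder A), Countable A ∧
      (∀ X : Set A, IsLowerSet X →
        (Nonempty (X ↪o A) ∧ ¬ Nonempty (A ↪o X)) →
          (Nonempty ((X ⊕ₗ X) ↪o A) ∧ ¬ Nonempty (A ↪o (X ⊕ₗ X)))) ∧
      ∃ B : Set A, IsLowerSet B ∧ ¬ Nonempty (A ↪o B) ∧ ¬ Nonempty (A ↪o (Bᶜ : Set A)) := by
  refine ⟨Ch, inferInstance, ?_, ?_, {x | ∃ n, x = l n}, ?_, ?_, ?_⟩
  · have : Countable (ℕ ⊕ (ℕ × ℕ)) := inferInstance
    exact this
  · rintro X hX ⟨-, hn⟩
    have hleft := left_of_lt hX hn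
    have hwf := wf_of_left hleft
    choose g hg using hleft
    constructor
    · let F : (X ⊕ₗ X) → Ch := fun a =>
        match ofLex a with
        | Sum.inl x => x.1
        | Sum.inr x => r 0 (g x.1 x.2)
      refine ⟨OrderEmbedding.ofStrictMono F ?_⟩
      intro a b hab
      induction a using Lex.rec with
      | _ a =>
      induction b using Lex.rec with
      | _ b =>
      rcases a with a | a
      · rcases b with b | b
        · have h1 : a < b := Sum.Lex.inl_lt_inl_iff.mp hab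
          exact h1
        · change a.1 < r 0 (g b.1 b.2)
          rw [hg a.1 a.2]
          exact l_lt_r _ _ _
      · rcases b with b | b
        · exact absurd hab Sum.Lex.not_inr_lt_inl
        · change r 0 (g a.1 a.2) < r 0 (g b.1 b.2)
          have h1 : a < b := Sum.Lex.inr_lt_inr_iff.mp hab
          have h2 : a.1 < b.1 := h1
          rw [hg a.1 a.2, hg b.1 b.2] at h2
          exact r_lt_r.mpr (Or.inr ⟨rfl, l_lt_l.mp h2⟩)
    · rintro ⟨f⟩
      have : WellFoundedLT (X ⊕ₗ X) := ⟨Sum.lex_wf hwf.wf hwf.wf⟩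
      exact not_emb_of_wf f
  · rintro a b hba ⟨n, rfl⟩
    rcases cases b with h | ⟨j, m, rfl⟩
    · exact h
    · exact absurd hba (l_lt_r _ _ _).not_ge
  · rintro ⟨f⟩
    have := wf_of_left (X := {x : Ch | ∃ n, x = l n}) (fun x hx => hx)
    exact not_emb_of_wf f
  · rintro ⟨f⟩
    have hr : ∀ c : ({x : Ch | ∃ n, x = l n}ᶜ : Set Ch), ∃ j m, c.1 = r j m := by
      rintro ⟨c, hc⟩
      rcases cases c with h | h
      · exact absurd h hc
      · exact h
    choose J M hJM using hr
    have hJ : ∀ j : ℕ, J (f (r j 0)) ≤ J (f (l 0)) := by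
      intro j
      have h1 : (f (l 0)).1 < (f (r j 0)).1 := f.strictMono (l_lt_r 0 j 0)
      rw [hJM (f (l 0)), hJM (f (r j 0)), r_lt_r] at h1
      omega
    -- a strictly decreasing sequence in the lexicographic square of the naturals
    have hanti : StrictAnti (fun j : ℕ =>
        (toLex (J (f (l 0)) - J (f (r j 0)), M (f (r j 0))) : ℕ ×ₗ ℕ)) := by
      intro a b hab
      have h1 : (f (r b 0)).1 < (f (r a 0)).1 := f.strictMono (anti hab)
      rw [hJM (f (r b 0)), hJM (f (r a 0)), r_lt_r] at h1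
      have h2 := hJ a
      have h3 := hJ b
      change (toLex (J (f (l 0)) - J (f (r b 0)), M (f (r b 0))) : ℕ ×ₗ ℕ) <
        toLex (J (f (l 0)) - J (f (r a 0)), M (f (r a 0)))
      rw [Prod.Lex.toLex_lt_toLex]
      simp only
      omega
    exact not_strictAnti_of_wellFoundedLT _ hanti

end Pool.Agent.Results.MP_5790d7_co.Unsecable
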